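import Pool.Agent.Q50.BS.Main

set_option autoImplicit false

namespace Pool.Agent.Results.MP_0f6055_nt.ZerosNotRegular

/-- The binary digits of `n` at the positions `i, …, i + l - 1` (position `0` is the last digit)
form a block of zeros of length `l ≥ 1`: these digits are `0`, the digit at position `i + l` is
`1`, and either `i = 0` or the digit at position `i - 1` is `1`. -/
def IsZeroBlock (n i l : ℕ) : Prop :=
  0 < l ∧ (∀ t, i ≤ t → t < i + l → n.testBit t = false) ∧ n.testBit (i + l) = true ∧
    (i = 0 ∨ n.testBit (i - 1) = true)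

open Classical in
/-- The generalised Baum-Sweet sequence: `b r 0 = 1`, and for `n ≥ 1`, `b r n = 1` if the length
of each block of zeros of `n` is a multiple of `r`, and `b r n = 0` otherwise. -/
noncomputable def b (r n : ℕ) : ℕ :=
  if n = 0 then 1 else if ∀ i l, IsZeroBlock n i l → r ∣ l then 1 else 0

/-- The `k`-kernel of an integer sequence: the subsequences `n ↦ u (k^i n + j)`, `i ≥ 0`,
`0 ≤ j < k^i`. -/
def kernel (k : ℕ) (u : ℕ → ℤ) : Set (ℕ → ℤ) :=
  {v | ∃ i j : ℕ, j < k ^ i ∧ v = fun n => u (k ^ i * n + j)}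

/-- `u` is `k`-regular: the `ℤ`-submodule of `ℤ^ℕ` generated by its `k`-kernel is finitely
generated. -/
def IsRegular (k : ℕ) (u : ℕ → ℤ) : Prop := (Submodule.span ℤ (kernel k u)).FG

/-- For every `r ≥ 2` the strictly increasing enumeration `h` of the zeros of `b^(r)` (it exists
and is unique) is not `k`-regular for any `k ≥ 2`. -/
theorem result (r : ℕ) (hr : 2 ≤ r) :
    (∃! h : ℕ → ℕ, StrictMono h ∧ Set.range h = {m | b r m = 0}) ∧
    ∀ h : ℕ → ℕ, StrictMono h → Set.range h = {m | b r m = 0} →
      ∀ k : ℕ, 2 ≤ k → ¬ IsRegular k (fun n => (h n : ℤ)) := by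
  refine ⟨?_, ?_⟩
  · have hinf : {m | b r m = 0}.Infinite := by
      apply Set.infinite_of_injective_forall_mem (f := fun n : ℕ => 4 * n + 2)
      · intro x y hxy
        simp only at hxy
        omega
      · intro n
        show b r (4 * n + 2) = 0
        exact Pool.Agent.Q50.BS.b_mod_four hr (by omega)
    refine ⟨Nat.nth (fun m => b r m = 0), ⟨Nat.nth_strictMono hinf, ?_⟩, ?_⟩
    · exact Nat.range_nth_of_infinite hinf
    · rintro g ⟨hg1, hg2⟩
      refine (StrictMono.range_inj hg1 (Nat.nth_strictMono hinf)).1 ?_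
      rw [hg2]
      exact (Nat.range_nth_of_infinite hinf).symm
  · intro h hmono hrange k hk
    exact Pool.Agent.Q50.BS.main r hr h hmono hrange k hk

end Pool.Agent.Results.MP_0f6055_nt.ZerosNotRegular
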